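import Pool.Agent.R791.Edge2

/-!
# The singularity of the L-function of a variety at the edge of absolute convergence

Let `X` be smooth and projective over `ℚ` (or over a number field `K`), `i ≥ 0`, let `α_{v,1}, …, α_{v,d}` be the
eigenvalues of Frobenius on `H^i(X)` at the primes `v` (of good reduction, or all primes, with inertia invariants), so
that `|α_{v,j}| ≤ Nv^(i/2)`, and `L(s) = ∏_v ∏_j (1 - α_{v,j} Nv^(-s))⁻¹` for `Re s > e = 1 + i/2`. For real `b` and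
`y > 0` put, with the traces `t(v^k) = ∑_j α_{v,j}^k`,

`Θ_b(y) = (4πy)^(-1/2) ∑_{v, k ≥ 1} t(v^k) log(Nv) Nv^(-kb) exp (-(k log Nv)² / (4y))`.

Nothing is assumed on the continuation of `L`. For every real `κ` the following are equivalent:

(i) `L(s) = (s-e)^(-κ) h(s)` near `e` (for `Re s > e`), with `h` holomorphic at `e`, `h(e) ≠ 0`;

(ii) for ONE `b < e` the sum `Θ_b(y)` is `κ e^((e-b)²y)` up to an exponentially smaller error;

(iii) for ALL `b < e` the sum `Θ_b(y)` is `κ e^((e-b)²y)` up to an exponentially smaller error;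

(iv) for all `b < e` sufficiently near to `e`: `Θ_b(y) = κ e^((e-b)²y) + O(e^(εy))` for every `ε > 0`.

`κ` is unique. `L` continues meromorphically to a neighbourhood of `e` if and only if this holds with an INTEGER `κ`,
and then `-κ` is the order of `L` at `e`. So `L` is not zero at `e` (in the sense of the problem) if and only if the
Gaussian sums are not asymptotic in this way to `κ e^((e-b)²y)` with a negative integer `κ`.
-/

set_option autoImplicit false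

namespace Pool.Agent.Results.MP_2b9663_nt.EdgeExponents

open Filter Topology Complex NumberField IsDedekindDomain
open Pool.Agent.R791.Frob Pool.Agent.R791.Heat
open Pool.Agent.TH942.ES Pool.Agent.TH942.SL
open Pool.Agent.H921R2.TatePole (nm two_le_nm)

variable {K : Type} [Field K] [NumberField K] {d : ℕ} {c : ℝ}

/-- `L(s) = (s-e)^(-κ) h(s)` near `e = c + 1/2` for `Re s > e`, with `h` holomorphic at `e`, `h(e) ≠ 0`. -/
def HasExponent (V : Frobenius K d c) (κ : ℝ) : Prop :=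
  ∃ h : ℂ → ℂ, AnalyticAt ℂ h ((c + 1 / 2 : ℝ) : ℂ) ∧ h ((c + 1 / 2 : ℝ) : ℂ) ≠ 0 ∧
    ∀ᶠ s in 𝓝 ((c + 1 / 2 : ℝ) : ℂ), c + 1 / 2 < s.re →
      V.LSeries s = (s - ((c + 1 / 2 : ℝ) : ℂ)) ^ (-(κ : ℂ)) * h s

/-- `F` is meromorphic at `e = c + 1/2` and continues `L`. -/
def Continues (V : Frobenius K d c) (F : ℂ → ℂ) : Prop :=
  MeromorphicAt F ((c + 1 / 2 : ℝ) : ℂ) ∧
    ∀ᶠ s in 𝓝 ((c + 1 / 2 : ℝ) : ℂ), c + 1 / 2 < s.re → F s = V.LSeries s

/-- `|Θ_b(y) - κ e^((e-b)²y)| ≤ C e^(θy)` for some `C` and all `y > 0`. -/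
def Near (V : Frobenius K d c) (κ b θ : ℝ) : Prop :=
  ∃ C : ℝ, ∀ y : ℝ, 0 < y →
    |V.heat b y - κ * Real.exp ((c + 1 / 2 - b) ^ 2 * y)| ≤ C * Real.exp (θ * y)

lemma LSeries_ne (V : Frobenius K d c) {s : ℂ} (hs : c + 1 / 2 < s.re) : V.LSeries s ≠ 0 := by
  rw [← V.LE_eq]
  exact (V.sys.LE_diff (s := s - c) (by simp; linarith)).2

lemma down (V : Frobenius K d c) {κ b θ : ℝ} (hb : b < c + 1 / 2) (hθ : θ < (c + 1 / 2 - b) ^ 2)
    {C y₀ : ℝ} (hM : ∀ y : ℝ, y₀ ≤ y →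
      |V.heat b y - κ * Real.exp ((c + 1 / 2 - b) ^ 2 * y)| ≤ C * Real.exp (θ * y)) :
    HasExponent V κ := by
  have e0 : (1 : ℝ) / 2 - (b - c) = c + 1 / 2 - b := by ring
  set θ' : ℝ := max θ 0 with hθ'
  have hz0 : 0 < (c + 1 / 2 - b) ^ 2 := by
    have : 0 < c + 1 / 2 - b := by linarith
    positivity
  obtain ⟨h, h1, h2, h3⟩ := edge_down V.sys V.hreal (w := b - c) (θ := θ') (k := κ) (C := |C|)
    (y₀ := max y₀ 1) (by linarith) (le_max_right _ _) (by rw [e0]; exact max_lt hθ hz0)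
    fun y hy => by
      have hy1 : y₀ ≤ y := (le_max_left _ _).trans hy
      have hy2 : 1 ≤ y := (le_max_right _ _).trans hy
      rw [← V.heat_eq b (by linarith), e0]
      refine (hM y hy1).trans ?_
      refine mul_le_mul (le_abs_self C) (Real.exp_le_exp.2 ?_) (Real.exp_pos _).le (abs_nonneg _)
      exact mul_le_mul_of_nonneg_right (le_max_left _ _) (by linarith)
  have e1 : (((c + 1 / 2 : ℝ) : ℂ) - c) = 1 / 2 := by push_cast; ring
  refine ⟨fun s => h (s - c), ?_, ?_, ?_⟩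
  · refine AnalyticAt.fun_comp (g := h) (f := fun s : ℂ => s - c) ?_ (by fun_prop)
    rw [e1]
    exact h1
  · simp only
    rw [e1]
    exact h2
  · have c1 : Tendsto (fun s : ℂ => s - c) (𝓝 ((c + 1 / 2 : ℝ) : ℂ)) (𝓝 (1 / 2)) := by
      rw [← e1]
      exact Continuous.tendsto (by fun_prop) _
    filter_upwards [c1.eventually h3] with s hs hs2
    have e2 := hs (by simp; linarith)
    rw [V.LE_eq] at e2
    rw [e2]
    congr 2
    push_cast
    ring

lemma up (V : Frobenius K d c) {κ : ℝ} (h : HasExponent V κ) : ∃ δ : ℝ, 0 < δ ∧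
    ∀ b θ θ' : ℝ, b < c + 1 / 2 → 0 ≤ θ → θ < θ' → 2 * ((c + 1 / 2 - b) ^ 2 - θ) ≤ δ ^ 2 →
      Near V κ b θ' := by
  obtain ⟨h, h1, h2, h3⟩ := h
  have h4 : ∀ᶠ s in 𝓝 ((c + 1 / 2 : ℝ) : ℂ), h s ≠ 0 := h1.continuousAt.eventually_ne h2
  obtain ⟨δ, hδ, hall⟩ := Metric.eventually_nhds_iff.1 ((h1.eventually_analyticAt.and h4).and h3)
  refine ⟨δ, hδ, fun b θ θ' hb hθ hθ' hθδ => ?_⟩
  have e0 : (1 : ℝ) / 2 - (b - c) = c + 1 / 2 - b := by ring
  have hmem : ∀ s : ℂ, ‖s - 1 / 2‖ < δ → dist (s + c) ((c + 1 / 2 : ℝ) : ℂ) < δ := fun s hs => by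
    rw [dist_eq_norm]
    have : s + c - ((c + 1 / 2 : ℝ) : ℂ) = s - 1 / 2 := by push_cast; ring
    rw [this]
    exact hs
  obtain ⟨C, hC⟩ := edge_up V.sys V.hreal (k := κ) (h := fun s => h (s + c)) hδ
    (fun s hs => ⟨AnalyticAt.fun_comp (g := h) (f := fun s : ℂ => s + c)
      (hall (hmem s hs)).1.1 (by fun_prop), (hall (hmem s hs)).1.2⟩)
    (fun s hs hs2 => by
      have e1 := (hall (hmem s hs)).2 (by simp; linarith)
      have e2 := V.LE_eq (s + c)
      rw [add_sub_cancel_right] at e2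
      rw [e2, e1]
      congr 2
      push_cast
      ring)
    (w := b - c) (by linarith) hθ hθ' (by rw [e0]; exact hθδ)
  refine ⟨C, fun y hy => ?_⟩
  have e1 := hC y hy
  rw [← V.heat_eq b hy, e0] at e1
  exact e1

/-- **The singularity of `L` at the edge and Gaussian sums of traces of Frobenius.** -/
theorem result {K : Type} [Field K] [NumberField K] {d : ℕ} {c : ℝ} (V : Frobenius K d c) :
    (∀ κ : ℝ, List.TFAE [
      HasExponent V κ,
      ∃ b : ℝ, b < c + 1 / 2 ∧ ∃ η : ℝ, 0 < η ∧ Near V κ b ((c + 1 / 2 - b) ^ 2 - η),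
      ∀ b : ℝ, b < c + 1 / 2 → ∃ η : ℝ, 0 < η ∧ Near V κ b ((c + 1 / 2 - b) ^ 2 - η),
      ∃ b₀ : ℝ, b₀ < c + 1 / 2 ∧ ∀ b : ℝ, b₀ < b → b < c + 1 / 2 → ∀ ε : ℝ, 0 < ε →
        Near V κ b ε]) ∧
    (∀ κ κ' : ℝ, HasExponent V κ → HasExponent V κ' → κ = κ') ∧
    ((∃ F : ℂ → ℂ, Continues V F) ↔ ∃ n : ℤ, HasExponent V n) ∧
    (∀ F : ℂ → ℂ, Continues V F → ∃ n : ℤ, HasExponent V n ∧
      meromorphicOrderAt F ((c + 1 / 2 : ℝ) : ℂ) = ((-n : ℤ) : WithTop ℤ)) ∧
    ((∀ F : ℂ → ℂ, Continues V F → meromorphicOrderAt F ((c + 1 / 2 : ℝ) : ℂ) ≤ 0) ↔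
      ∀ n : ℤ, HasExponent V n → 0 ≤ n) := by
  have hT : ∀ κ : ℝ, List.TFAE [
      HasExponent V κ,
      ∃ b : ℝ, b < c + 1 / 2 ∧ ∃ η : ℝ, 0 < η ∧ Near V κ b ((c + 1 / 2 - b) ^ 2 - η),
      ∀ b : ℝ, b < c + 1 / 2 → ∃ η : ℝ, 0 < η ∧ Near V κ b ((c + 1 / 2 - b) ^ 2 - η),
      ∃ b₀ : ℝ, b₀ < c + 1 / 2 ∧ ∀ b : ℝ, b₀ < b → b < c + 1 / 2 → ∀ ε : ℝ, 0 < ε →
        Near V κ b ε] := by
    intro κ
    tfae_have 1 → 3 := by
      intro h b hb
      obtain ⟨δ, hδ, hall⟩ := up V h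
      set z₀ : ℝ := (c + 1 / 2 - b) ^ 2 with hz₀
      have hz0 : 0 < z₀ := by
        have : 0 < c + 1 / 2 - b := by linarith
        positivity
      set η : ℝ := min (z₀ / 2) (δ ^ 2 / 2) with hη
      have h1 : 0 < η := lt_min (by positivity) (by positivity)
      have h2 : η ≤ z₀ / 2 := min_le_left _ _
      have h3 : η ≤ δ ^ 2 / 2 := min_le_right _ _
      exact ⟨η / 2, by positivity, hall b (z₀ - η) (z₀ - η / 2) hb (by linarith) (by linarith)
        (by linarith)⟩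
    tfae_have 3 → 2 := fun h => ⟨c, by linarith, h c (by linarith)⟩
    tfae_have 2 → 1 := by
      rintro ⟨b, hb, η, hη, C, hC⟩
      exact down V hb (θ := (c + 1 / 2 - b) ^ 2 - η) (by linarith) (y₀ := 1)
        fun y hy => hC y (by linarith)
    tfae_have 1 → 4 := by
      intro h
      obtain ⟨δ, hδ, hall⟩ := up V h
      refine ⟨c + 1 / 2 - min δ 1 / 2, by have := lt_min hδ one_pos; linarith,
        fun b hb1 hb2 ε hε => hall b 0 ε hb2 le_rfl hε ?_⟩
      have h1 : c + 1 / 2 - b < δ / 2 := by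
        have := min_le_left δ 1
        linarith
      have h2 : 0 < c + 1 / 2 - b := by linarith
      have h3 : (c + 1 / 2 - b) ^ 2 < (δ / 2) ^ 2 := pow_lt_pow_left₀ h1 h2.le two_ne_zero
      nlinarith
    tfae_have 4 → 2 := by
      rintro ⟨b₀, hb₀, h⟩
      set b : ℝ := (b₀ + (c + 1 / 2)) / 2 with hb
      have h1 : b₀ < b := by rw [hb]; linarith
      have h2 : b < c + 1 / 2 := by rw [hb]; linarith
      have h3 : 0 < (c + 1 / 2 - b) ^ 2 := by
        have : 0 < c + 1 / 2 - b := by linarith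
        positivity
      refine ⟨b, h2, (c + 1 / 2 - b) ^ 2 / 2, by positivity, ?_⟩
      rw [show (c + 1 / 2 - b) ^ 2 - (c + 1 / 2 - b) ^ 2 / 2 = (c + 1 / 2 - b) ^ 2 / 2 by ring]
      exact h b h1 h2 _ (by positivity)
    tfae_finish
  have hU : ∀ κ κ' : ℝ, HasExponent V κ → HasExponent V κ' → κ = κ' := by
    intro κ κ' h h'
    obtain ⟨b₀, hb₀, h1⟩ := ((hT κ).out 0 3).1 h
    obtain ⟨b₁, hb₁, h2⟩ := ((hT κ').out 0 3).1 h'
    obtain ⟨b, hb1, hb2⟩ := exists_between (max_lt hb₀ hb₁)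
    have hb3 := (le_max_left _ _).trans_lt hb1
    have hb4 := (le_max_right _ _).trans_lt hb1
    set z₀ : ℝ := (c + 1 / 2 - b) ^ 2 with hz₀
    have hz0 : 0 < z₀ := by
      have : 0 < c + 1 / 2 - b := by linarith
      positivity
    obtain ⟨C, hC⟩ := h1 b hb3 hb2 (z₀ / 2) (by positivity)
    obtain ⟨C', hC'⟩ := h2 b hb4 hb2 (z₀ / 2) (by positivity)
    have key : ∀ y : ℝ, 0 < y → |κ - κ'| ≤ (C + C') * Real.exp (-(z₀ / 2) * y) := by
      intro y hy
      have e1 := hC y hy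
      have e2 := hC' y hy
      rw [← hz₀] at e1 e2
      have e3 : |κ - κ'| * Real.exp (z₀ * y) ≤ (C + C') * Real.exp (z₀ / 2 * y) := by
        have e4 : |κ - κ'| * Real.exp (z₀ * y) = |(V.heat b y - κ' * Real.exp (z₀ * y)) -
            (V.heat b y - κ * Real.exp (z₀ * y))| := by
          rw [← abs_of_pos (Real.exp_pos (z₀ * y)), ← abs_mul, abs_of_pos (Real.exp_pos (z₀ * y))]
          congr 1
          ring
        rw [e4]
        refine (abs_sub _ _).trans ?_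
        linarith
      have e5 : Real.exp (z₀ / 2 * y) = Real.exp (z₀ * y) * Real.exp (-(z₀ / 2) * y) := by
        rw [← Real.exp_add]
        congr 1
        ring
      rw [e5] at e3
      have e6 := Real.exp_pos (z₀ * y)
      have e7 : Real.exp (z₀ * y) * |κ - κ'| ≤
          Real.exp (z₀ * y) * ((C + C') * Real.exp (-(z₀ / 2) * y)) := by linarith
      exact le_of_mul_le_mul_left e7 e6
    have hlim : Tendsto (fun y : ℝ => (C + C') * Real.exp (-(z₀ / 2) * y)) atTop (𝓝 0) := by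
      have e1 : Tendsto (fun y : ℝ => -(z₀ / 2) * y) atTop atBot :=
        tendsto_id.const_mul_atTop_of_neg (by linarith)
      have e2 := (Real.tendsto_exp_atBot.comp e1).const_mul (C + C')
      simpa using e2
    have e1 : |κ - κ'| ≤ 0 := ge_of_tendsto hlim (by
      filter_upwards [eventually_gt_atTop 0] with y hy
      exact key y hy)
    exact sub_eq_zero.1 (abs_eq_zero.1 (le_antisymm e1 (abs_nonneg _)))
  -- meromorphic continuations
  set p : ℂ := ((c + 1 / 2 : ℝ) : ℂ) with hp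
  have hne : ∀ s : ℂ, c + 1 / 2 < s.re → s - p ≠ 0 := fun s hs h => by
    have : (s - p).re = 0 := by rw [h]; simp
    rw [Complex.sub_re, hp, Complex.ofReal_re] at this
    linarith
  have hF1 : ∀ F : ℂ → ℂ, Continues V F → ∃ n : ℤ, HasExponent V n ∧
      meromorphicOrderAt F p = ((-n : ℤ) : WithTop ℤ) := by
    rintro F ⟨h1, h2⟩
    have htop : meromorphicOrderAt F p ≠ ⊤ := by
      intro h
      rw [meromorphicOrderAt_eq_top_iff] at h
      have h3 : ∀ᶠ s in 𝓝[≠] p, c + 1 / 2 < s.re → False := by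
        filter_upwards [h, nhdsWithin_le_nhds h2] with s hs1 hs2 hs3
        exact LSeries_ne V hs3 (by rw [← hs2 hs3, hs1])
      obtain ⟨ε, hε, h4⟩ := Metric.mem_nhdsWithin_iff.1 h3
      have h5 : p + ((ε / 2 : ℝ) : ℂ) ∈ {s : ℂ | c + 1 / 2 < s.re → False} := by
        refine h4 ⟨?_, ?_⟩
        · rw [Metric.mem_ball, dist_eq_norm, add_sub_cancel_left, Complex.norm_real,
            Real.norm_eq_abs, abs_of_pos (by positivity)]
          linarith
        · intro hcon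
          have e1 : p + ((ε / 2 : ℝ) : ℂ) = p := hcon
          have e2 : ((ε / 2 : ℝ) : ℂ) = 0 := by linear_combination e1
          have e3 : ε / 2 = 0 := by exact_mod_cast e2
          linarith
      refine h5 ?_
      rw [Complex.add_re, hp, Complex.ofReal_re, Complex.ofReal_re]
      linarith
    obtain ⟨m, hm⟩ := WithTop.ne_top_iff_exists.1 htop
    refine ⟨-m, ?_, by rw [neg_neg, ← hm]⟩
    obtain ⟨g, hg1, hg2, hg3⟩ := (meromorphicOrderAt_eq_int_iff h1).1 hm.symm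
    refine ⟨g, hg1, hg2, ?_⟩
    rw [eventually_nhdsWithin_iff] at hg3
    filter_upwards [h2, hg3] with s hs1 hs2 hs3
    rw [← hs1 hs3, hs2 (sub_ne_zero.1 (hne s hs3)), smul_eq_mul]
    congr 1
    have e1 : (-(((-m : ℤ) : ℝ) : ℂ)) = ((m : ℤ) : ℂ) := by push_cast; ring
    rw [e1, Complex.cpow_intCast]
  have hF2 : ∀ n : ℤ, HasExponent V n → ∃ F : ℂ → ℂ, Continues V F ∧
      meromorphicOrderAt F p = ((-n : ℤ) : WithTop ℤ) := by
    rintro n ⟨h, h1, h2, h3⟩
    have hm : MeromorphicAt (fun s => (s - p) ^ (-n) * h s) p :=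
      (MeromorphicAt.zpow (f := fun s : ℂ => s - p) (by fun_prop) _).mul h1.meromorphicAt
    refine ⟨fun s => (s - p) ^ (-n) * h s, ⟨hm, ?_⟩, ?_⟩
    · filter_upwards [h3] with s hs1 hs2
      rw [hs1 hs2]
      congr 1
      have e1 : (-(((n : ℤ) : ℝ) : ℂ)) = ((-n : ℤ) : ℂ) := by push_cast; ring
      rw [e1, Complex.cpow_intCast]
    · rw [meromorphicOrderAt_eq_int_iff hm]
      exact ⟨h, h1, h2, Eventually.of_forall fun s => by rw [smul_eq_mul]⟩
  refine ⟨hT, hU, ⟨fun ⟨F, hF⟩ => ?_, fun ⟨n, hn⟩ => ?_⟩, hF1, ⟨fun h n hn => ?_, fun h F hF => ?_⟩⟩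
  · obtain ⟨n, hn, -⟩ := hF1 F hF
    exact ⟨n, hn⟩
  · obtain ⟨F, hF, -⟩ := hF2 n hn
    exact ⟨F, hF⟩
  · obtain ⟨F, hF, ho⟩ := hF2 n hn
    have e1 := h F hF
    rw [ho] at e1
    have e2 : -n ≤ 0 := by exact_mod_cast e1
    linarith
  · obtain ⟨n, hn, ho⟩ := hF1 F hF
    rw [ho]
    have e2 : -n ≤ 0 := by have := h n hn; linarith
    exact_mod_cast e2

end Pool.Agent.Results.MP_2b9663_nt.EdgeExponents
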