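import Pool.Agent.R376.RandL
import Pool.Agent.R376.RandM

/-!
# A sparse random set of primes decides the order at the edge of absolute convergence

Let `X` be a smooth projective variety over a number field `k`, `i ≥ 0`, and let `L(s)` be the
`L`-function of `H^i(X)`, `s₀ = i/2 + 1`. The following shows that the order of `L` at `s₀` — the question
is whether it can be positive — does not depend on almost all of the primes, once and for all
varieties over all number fields and all `i`.

Let `0 < κ ≤ 1/2` (as small as one likes) and let `S` be a random set of natural numbers: `n ∈ S` with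
the probability `(n + 1) ^ (κ - 1)`, independently. Almost every `S` has only `O(n ^ κ)` elements up to
`n`. For almost every `S` the following holds simultaneously for any given countable family of triples
`(k, X, i)` (up to isomorphism there are only countably many). Let

`Λ_S(s) = ∑_{v, q_v prime, q_v ∈ S} (q_v + 1) ^ (1 - κ) tr(Frob_v | H^i) q_v ^ (-s)`,

the sum over the primes `v` of degree one over the prime numbers in `S`. Then

* `Λ_S(s)` converges absolutely for `Re s > s₀`;
* `L(s) = ∏_{v ∈ T} L_v(s) · exp (Λ_S(s)) · R(s)` with a finite set `T` and a function `R` which is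
  holomorphic and has no zeros in the larger half plane `Re s > s₀ - κ/2`;
* for every `r`: `L` extends meromorphically to a neighbourhood of `s₀` with the order `r` there if and
  only if this is true for `exp Λ_S`;
* if this is so, then `Re Λ_S(s₀ + ε) / log ε → r` for `ε → 0`. So a zero of `L` at `s₀` would be seen in
  the sparse set: `Re Λ_S(s₀ + ε)` would tend to `-∞` at least as fast as `log ε`.

Proof. By Kolmogorov's theorem on series of independent random variables and Abel's summation the random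
Dirichlet series `∑_p (1_S(p)/θ_p - 1) a_p p^{-s}`, `|a_p| ≤ C p^{i/2}`, converges for
`Re s > s₀ - κ/2` for almost every `S`, because the variances `|a_p|² p^{-2σ} / θ_p` are summable for
`σ > s₀ - κ/2`. The primes of degree `≥ 2` and the higher terms of the logarithms are in the
decomposition of the library of helper385 (`Pool.Agent.R385.PH`).
-/

set_option autoImplicit false

namespace Pool.Agent.Results.MP_2b9663_nt.SparseRandomPrimes

open NumberField IsDedekindDomain Filter Topology MeasureTheory ProbabilityTheory Polynomial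

/-- The probability `(n + 1) ^ (κ - 1)`. -/
noncomputable def density (κ : ℝ) (n : ℕ) : ℝ := ((n : ℝ) + 1) ^ (κ - 1)

/-- The law of the random set `S ⊆ ℕ` which contains `n` with the probability `density κ n`
(truncated to `[0, 1]`), independently for all `n`; a set is a sequence in `Bool`. -/
noncomputable def randomSet (κ : ℝ) : Measure (ℕ → Bool) :=
  Measure.infinitePi fun n =>
    bernoulliMeasure true false (Set.projIcc (0 : ℝ) 1 zero_le_one (density κ n))

/-- The boundary point `s₀ = w/2 + 1` for the weight `w`. -/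
noncomputable def edge (w : ℕ) : ℝ := (w : ℝ) / 2 + 1

variable {k : Type} [Field k] [NumberField k]

/-- The Euler factor `1 / B_v(q_v^{-s})`. -/
noncomputable def factor (B : HeightOneSpectrum (𝓞 k) → ℂ[X]) (v : HeightOneSpectrum (𝓞 k))
    (s : ℂ) : ℂ :=
  ((B v).eval ((Ideal.absNorm v.asIdeal : ℂ) ^ (-s)))⁻¹

/-- The Euler product over all primes of `k`. -/
noncomputable def LFun (B : HeightOneSpectrum (𝓞 k) → ℂ[X]) (s : ℂ) : ℂ :=
  ∏' v : HeightOneSpectrum (𝓞 k), factor B v s

/-- The polynomials `B v` are the denominators of the Euler factors of an `L`-function of weight `w`: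
for almost all primes `v` of `k` there are complex numbers `α_1, …, α_N` of absolute value
`q_v ^ (w/2)`, the eigenvalues of the Frobenius on `H^w`, such that `B_v(z) = ∏ (1 - α_j z)`, and no
factor `1 / B_v(q_v^{-s})` has a pole at `s₀`. -/
def IsEulerProduct (w N : ℕ) (B : HeightOneSpectrum (𝓞 k) → ℂ[X]) : Prop :=
  (∀ᶠ v in cofinite, ∃ α : Fin N → ℂ,
    (∀ j, ‖α j‖ = (Ideal.absNorm v.asIdeal : ℝ) ^ ((w : ℝ) / 2)) ∧
    ∀ z : ℂ, (B v).eval z = ∏ j, (1 - α j * z)) ∧
  ∀ v, (B v).eval ((Ideal.absNorm v.asIdeal : ℂ) ^ (-(edge w : ℂ))) ≠ 0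

/-- The term of `Λ_S(s)` at the prime `v` of `k`: if `q_v` is a prime number in `S`, it is
`tr(Frob_v) q_v^{-s}` divided by the probability of `q_v`, where `tr(Frob_v)` is minus the coefficient
of `z` in `B_v(z)`; otherwise it is `0`. -/
noncomputable def thinTerm (B : HeightOneSpectrum (𝓞 k) → ℂ[X]) (κ : ℝ) (S : ℕ → Bool) (s : ℂ)
    (v : HeightOneSpectrum (𝓞 k)) : ℂ :=
  if (Ideal.absNorm v.asIdeal).Prime ∧ S (Ideal.absNorm v.asIdeal) = true then
    -(B v).coeff 1 / (density κ (Ideal.absNorm v.asIdeal) : ℂ) *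
      (Ideal.absNorm v.asIdeal : ℂ) ^ (-s)
  else 0

/-- The function `exp Λ_S(s)`. -/
noncomputable def thinL (B : HeightOneSpectrum (𝓞 k) → ℂ[X]) (κ : ℝ) (S : ℕ → Bool) (s : ℂ) : ℂ :=
  Complex.exp (∑' v, thinTerm B κ S s v)

/-- The function `L`, given for `Re s > s₀`, extends meromorphically to a neighbourhood of `s₀` and the
extension has the order `r` there (`r > 0`: a zero, `r < 0`: a pole). -/
def HasOrder (L : ℂ → ℂ) (s₀ : ℝ) (r : ℤ) : Prop :=
  ∃ F : ℂ → ℂ, MeromorphicAt F s₀ ∧ meromorphicOrderAt F s₀ = r ∧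
    ∀ᶠ s in 𝓝 (s₀ : ℂ), s₀ < s.re → F s = L s

/-- the equivalence of the orders -/
theorem order_equiv {w N : ℕ} {B : HeightOneSpectrum (𝓞 k) → ℂ[X]} (hB : IsEulerProduct w N B)
    {κ : ℝ} (h0 : 0 < κ) {T : Finset (HeightOneSpectrum (𝓞 k))} {R L : ℂ → ℂ}
    (hR : DifferentiableOn ℂ R {s : ℂ | edge w - κ / 2 < s.re}) (hR0 : ∀ s, R s ≠ 0)
    (h : ∀ s : ℂ, edge w < s.re → LFun B s = (∏ v ∈ T, factor B v s) * L s * R s) (r : ℤ) :
    HasOrder (LFun B) (edge w) r ↔ HasOrder L (edge w) r := by
  have hopen : IsOpen {s : ℂ | edge w - κ / 2 < s.re} :=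
    isOpen_lt continuous_const Complex.continuous_re
  have h2 : AnalyticAt ℂ R (edge w : ℂ) := hR.analyticAt (hopen.mem_nhds (by
    show edge w - κ / 2 < (edge w : ℂ).re
    rw [Complex.ofReal_re]
    linarith))
  have h3 : AnalyticAt ℂ (fun s => ∏ v ∈ T, factor B v s) (edge w : ℂ) := by
    refine Finset.analyticAt_fun_prod _ fun v _ => ?_
    have hq0 : ((Ideal.absNorm v.asIdeal : ℕ) : ℂ) ≠ 0 := by
      have h4 := Pool.Agent.H921R2.TatePole.two_le_nm v
      unfold Pool.Agent.H921R2.TatePole.nm at h4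
      exact_mod_cast (by omega : Ideal.absNorm v.asIdeal ≠ 0)
    have h5 : Differentiable ℂ fun s : ℂ => (B v).eval ((Ideal.absNorm v.asIdeal : ℂ) ^ (-s)) := by
      have h6 : Differentiable ℂ fun s : ℂ => (Ideal.absNorm v.asIdeal : ℂ) ^ (-s) :=
        Differentiable.const_cpow (by fun_prop) (Or.inl hq0)
      exact (B v).differentiable.comp h6
    exact (h5.analyticAt _).inv (hB.2 v)
  have h4 : (fun s => ∏ v ∈ T, factor B v s) (edge w : ℂ) ≠ 0 :=
    Finset.prod_ne_zero_iff.2 fun v _ => inv_ne_zero (hB.2 v)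
  exact R376.Rnd.ord_iff (L := LFun B) (T := L)
    (G := (fun s => ∏ v ∈ T, factor B v s) * R) (h3.mul h2) (mul_ne_zero h4 (hR0 _))
    (Eventually.of_forall fun s hs => by
      rw [h s hs, Pi.mul_apply]
      ring) r

/-- **Sparse random sets of primes decide the order of the `L`-functions of all varieties at the edge
of absolute convergence.** -/
theorem result (κ : ℝ) (h0 : 0 < κ) (h1 : κ ≤ 1 / 2) {ι : Type} [Countable ι] (k : ι → Type)
    [∀ i, Field (k i)] [∀ i, NumberField (k i)] (w N : ι → ℕ)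
    (B : ∀ i, HeightOneSpectrum (𝓞 (k i)) → ℂ[X]) (hB : ∀ i, IsEulerProduct (w i) (N i) (B i)) :
    ∀ᵐ S ∂(randomSet κ),
      -- `S` has at most `C (n + 1)^κ` elements up to `n`
      (∃ C : ℝ, ∀ n : ℕ, (((Finset.range (n + 1)).filter fun m => S m = true).card : ℝ) ≤
        C * ((n : ℝ) + 1) ^ κ) ∧
      ∀ i : ι,
        -- absolute convergence
        (∀ s : ℂ, edge (w i) < s.re → Summable (thinTerm (B i) κ S s)) ∧
        -- the factorisation
        (∃ (T : Finset (HeightOneSpectrum (𝓞 (k i)))) (R : ℂ → ℂ),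
          DifferentiableOn ℂ R {s : ℂ | edge (w i) - κ / 2 < s.re} ∧ (∀ s, R s ≠ 0) ∧
          ∀ s : ℂ, edge (w i) < s.re →
            LFun (B i) s = (∏ v ∈ T, factor (B i) v s) * thinL (B i) κ S s * R s) ∧
        -- the order at `s₀`
        (∀ r : ℤ, HasOrder (LFun (B i)) (edge (w i)) r ↔
          HasOrder (thinL (B i) κ S) (edge (w i)) r) ∧
        -- the order from the growth
        (∀ r : ℤ, HasOrder (LFun (B i)) (edge (w i)) r → Tendsto (fun ε : ℝ =>
          (∑' v, thinTerm (B i) κ S (edge (w i) + ε) v).re / Real.log ε) (𝓝[>] 0) (𝓝 (r : ℝ))) := by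
  have hB' : ∀ i, R376.Rnd.IsEulerW (w i : ℤ) (N i) (B i) := fun i => by
    have := (hB i).1
    unfold R376.Rnd.IsEulerW
    simpa only [Int.cast_natCast] using this
  have he : ∀ i, R376.Rnd.ed (w i : ℤ) = edge (w i) := fun i => by
    unfold R376.Rnd.ed edge
    push_cast
    rfl
  have h2 : ∀ᵐ S ∂(R376.Rnd.lawS (R376.Rnd.th κ)), _ := (R376.Rnd.thin_card h0 (by linarith)).and
    (ae_all_iff.2 fun i => R376.Rnd.thin_mainw (hB' i) h0 h1)
  refine h2.mono ?_
  rintro S ⟨hS1, hS2⟩
  refine ⟨hS1, fun i => ?_⟩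
  obtain ⟨hs, T, R, hR, hR0, hL⟩ := hS2 i
  rw [he i] at hs hR hL
  have hL' : ∀ s : ℂ, edge (w i) < s.re →
      LFun (B i) s = (∏ v ∈ T, factor (B i) v s) * thinL (B i) κ S s * R s := hL
  have hiff : ∀ r : ℤ, HasOrder (LFun (B i)) (edge (w i)) r ↔
      HasOrder (thinL (B i) κ S) (edge (w i)) r := order_equiv (hB i) h0 hR hR0 hL'
  exact ⟨hs, ⟨T, R, hR, hR0, hL'⟩, hiff, fun r hr =>
    R376.Rnd.ord_growth (t := fun s => ∑' v, thinTerm (B i) κ S s v) ((hiff r).1 hr)⟩

end Pool.Agent.Results.MP_2b9663_nt.SparseRandomPrimes
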