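import Pool.Agent.R461.UR.Final

/-!
# A zero at the edge determines the orders of the twists by all cohomology groups of all varieties

`K` is a number field, for example `K = ℚ`.  `Coh K` are the cohomology groups `H = H^i(X)` of the smooth
projective varieties over `K`, `Mot K` the tensor products `M = H^{i_1}(X_1) ⊗ ⋯ ⊗ H^{i_m}(X_m) ⊗ ψ` with
Artin representations `ψ` of `K`; the edge line of `L(M, s)` is `Re s = w/2 + 1`, `w` the weight.  For
`K = ℚ` and `M = H` the real point of the edge line is the point `s₀` of the problem.  Nothing is assumed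
about the automorphy of these representations.
The definitions are in `Pool.Agent.R461.UR.Defs`, `Pool.Agent.W353.AT.Defs`, `Pool.Agent.W353.EH.Defs`
and `Pool.Agent.W353.EF.Defs`.
-/

set_option autoImplicit false

namespace Pool.Agent.Results.MP_2b9663_nt.UniversalRigidity

open NumberField IsDedekindDomain Filter Topology Polynomial
open Pool.Agent.W353.EH (size HasOrder)
open Pool.Agent.R461.UR

/-- **Universal rigidity at the edge.**  Write `x_τ(M)` for `log |L(M, s_τ + ε)| / log(1/ε)`,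
`s_τ = w/2 + 1 + iτ`, a function of `ε > 0`; if `L(M, s)` has a meromorphic continuation to a
neighbourhood of `s_τ`, then its limit is minus the order there.
* Let `P_a` be in `Mot K`, `a` in a finite set, `c_a` real and `Q = ∑ c_a c_b x_0(P_a ⊗ P_b')`, where `'` is
the dual on the Artin representation (no continuation is assumed).  For all `η > 0` and small `ε > 0`
the number `Q` is at least `-η`, and for all `M`, `τ` and `δ > 0` it is
`|∑ c_a x_τ(P_a ⊗ M)| ≤ dim M (δ + Q / δ) / 2 + η`.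
* If the `L(P_a ⊗ P_b', s)` have orders `k_ab` at the real points of their edge lines, then
`∑ c_a c_b k_ab ≤ 0`; and if this sum is `0`, then for all `M` and `τ` the sum `∑ c_a x_τ(P_a ⊗ M)` tends
to `0`, and `∑ c_a m_a = 0` for the orders `m_a` of `L(P_a ⊗ M, s)` at `s_τ`, if they exist.
* Let `H = H^i(X)` be such that `L(H, s)` has the order `k ≠ 0` at `s₀` and `L(H ⊗ H, s)` has at most a
simple pole.  Then `k = ±1`, and for all `M` and `τ` the sum `x_τ(H ⊗ M) + k x_τ(M)` tends to `0`; the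
order of `L(H ⊗ M, s)` at `s_τ` is `-k` times that of `L(M, s)`, if both exist.  So if `L(X, s) = L(H, s)`
vanishes at `s₀`, the zero is simple and the twist by `H` changes the sign of all orders on the edge
lines.
* Let `H` and `H'` have this property, with `k` and `k'`.  Then `x_0(H ⊗ H')` tends to `k k'`, the order of
`L(H ⊗ H', s)` is `-k k'`, if it exists, and `x_τ(H ⊗ M) - k k' x_τ(H' ⊗ M)` tends to `0` for all `M` and
`τ`.  So if `L(H, s)` and `L(H', s)` vanish at the edge, then `L(H ⊗ H', s)` has a simple pole there: up to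
this equivalence there is at most one exception to Q1 among the `H` whose tensor square has at
most a simple pole. -/
theorem result (K : Type) [Field K] [NumberField K] :
    (∀ (κ : Type) [Fintype κ] (P : κ → Mot K) (c : κ → ℝ)
      (B : κ → κ → HeightOneSpectrum (𝓞 K) → ℂ[X]), (∀ a b, IsPairing (P a) (P b) (B a b)) →
      (∀ η : ℝ, 0 < η → ∀ᶠ ε : ℝ in 𝓝[>] 0, -η ≤ form P c B ε) ∧
      (∀ (M : Mot K) (τ : ℝ) (C : κ → HeightOneSpectrum (𝓞 K) → ℂ[X]),
        (∀ a, IsTensor (P a) M τ (C a)) → ∀ δ η : ℝ, 0 < δ → 0 < η → ∀ᶠ ε : ℝ in 𝓝[>] 0,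
        |∑ a, c a * sizeT (P a) M τ (C a) ε| ≤ M.dim * ((δ + form P c B ε / δ) / 2) + η) ∧
      ∀ k : κ → κ → ℤ, (∀ a b, OrderT (P a) (P b) 0 (B a b) (k a b)) →
        ∑ a, ∑ b, c a * c b * k a b ≤ 0 ∧ (∑ a, ∑ b, c a * c b * k a b = 0 →
          ∀ (M : Mot K) (τ : ℝ) (C : κ → HeightOneSpectrum (𝓞 K) → ℂ[X]),
          (∀ a, IsTensor (P a) M τ (C a)) →
          Tendsto (fun ε => ∑ a, c a * sizeT (P a) M τ (C a) ε) (𝓝[>] 0) (𝓝 0) ∧
          ∀ m : κ → ℤ, (∀ a, OrderT (P a) M τ (C a) (m a)) → ∑ a, c a * m a = 0)) ∧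
    (∀ (H : Coh K) (k : ℤ), Special H k → (k = 1 ∨ k = -1) ∧
      ∀ (M : Mot K) (τ : ℝ) (C C' : HeightOneSpectrum (𝓞 K) → ℂ[X]),
        IsTensor H.mot M τ C → IsL M τ C' →
        Tendsto (fun ε : ℝ => sizeT H.mot M τ C ε + k * size (weight M.H) τ C' ε) (𝓝[>] 0)
          (𝓝 0) ∧
        ∀ m m' : ℤ, OrderT H.mot M τ C m → HasOrder (weight M.H) τ C' m' → m = -k * m') ∧
    ∀ (H H' : Coh K) (k k' : ℤ), Special H k → Special H' k' →
      (∀ D : HeightOneSpectrum (𝓞 K) → ℂ[X], IsTensor H.mot H'.mot 0 D →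
        Tendsto (sizeT H.mot H'.mot 0 D) (𝓝[>] 0) (𝓝 ((k : ℝ) * k')) ∧
        ∀ m : ℤ, OrderT H.mot H'.mot 0 D m → m = -(k * k')) ∧
      ∀ (M : Mot K) (τ : ℝ) (C C' : HeightOneSpectrum (𝓞 K) → ℂ[X]),
        IsTensor H.mot M τ C → IsTensor H'.mot M τ C' →
        Tendsto (fun ε : ℝ => sizeT H.mot M τ C ε - k * k' * sizeT H'.mot M τ C' ε) (𝓝[>] 0)
          (𝓝 0) := by
  refine ⟨fun κ _ P c B hB => ?_, fun H k h => twists h, fun H H' k k' h h' => pairs h h'⟩
  choose σ hσ using Pool.Agent.W540.BE.exists_isFrob (F := K)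
  exact ⟨fun η hη => form_pos hσ hB hη, fun M τ C hC δ η hδ hη => ineq hσ hB hC hδ hη,
    fun k hk => form_orders hσ hB hk⟩

end Pool.Agent.Results.MP_2b9663_nt.UniversalRigidity
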