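import Pool.Agent.R461.ZF.Main

/-!
# The total number of zeros on the edge lines of the twists by a family

`K` is a number field, for example `K = ℚ`.  `Mot K` are the tensor products
`M = H^{i_1}(X_1) ⊗ ⋯ ⊗ H^{i_m}(X_m) ⊗ ψ` of cohomology groups of smooth projective varieties over `K` with
Artin representations `ψ` of `K`; the edge line of `L(M, s)` is `Re s = w/2 + 1`, `w` the weight.

`(P_b)` is a family in `Mot K`, finite or infinite, such that the `L(P_a ⊗ P_b', s)`, where `P'` is the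
dual of `P`, have no zeros and no poles on their edge lines, except for the poles of order `e_b` of the
`L(P_b ⊗ P_b', s)` at the real points (`IsOrthogonal`).  Examples are the `H¹(E)` for all elliptic curves
`E` over `ℚ` up to isogeny and without complex multiplication, all `e_b = 1`, by the modularity of the
`E` and the theorems of Rankin, Selberg, Jacquet and Shalika.

`M` is arbitrary, and nothing is assumed about its automorphy.  By the formula of Künneth
`L(M ⊗ P_b, s)` for `M = H^i(X)` and `P_b = H¹(E)` is a factor of the `L`-function of `H^{i+1}(X × E)`, and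
the real point of its edge line is the point `s₀` of the problem for `X × E`.
The definitions are in `Pool.Agent.R461.ZF.Defs`, `Pool.Agent.R461.UR.Defs`,
`Pool.Agent.W353.AT.Defs`, `Pool.Agent.W353.EH.Defs` and `Pool.Agent.W353.EF.Defs`.
-/

set_option autoImplicit false

namespace Pool.Agent.Results.MP_2b9663_nt.ZerosInFamilies

open NumberField IsDedekindDomain Filter Topology Polynomial
open Pool.Agent.R461.UR Pool.Agent.R461.ZF

/-- **The zeros on all edge lines together.**  Write `x_τ(P_b ⊗ M)` for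
`log |L(P_b ⊗ M, s_τ + ε)| / log(1/ε)`, `s_τ = w/2 + 1 + iτ`, a function of `ε > 0`.
* For every finite set `S` of pairs `(b, τ)`, `τ` real, and `η > 0`, for small `ε > 0`,
`∑_{(b, τ) ∈ S} x_τ(P_b ⊗ M)² / e_b` is at most `(dim M)² + η`, and at most `x_0(M ⊗ M') + η` (no
continuation is assumed).
* If `L(P_b ⊗ M, s)` has the order `m(b, τ)` at `s_τ` for `(b, τ) ∈ S`, then
`∑_{(b, τ) ∈ S} m(b, τ)² / e_b` is at most `(dim M)²`, and at most the order of the pole of
`L(M ⊗ M', s)` at the real point of its edge line, if it exists.  This bounds the zeros and poles on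
all the edge lines of all the `L(P_b ⊗ M, s)` together.
* At most `E (dim M)²` members `b` with `e_b ≤ E` are such that `L(P_b ⊗ M, s)` has a continuation to a
neighbourhood of some point of its edge line with a zero or a pole at this point. -/
theorem result (K : Type) [Field K] [NumberField K] (β : Type) (P : β → Mot K) (e : β → ℝ)
    (hP : IsOrthogonal P e) (M : Mot K) :
    (∀ (S : Finset (β × ℝ)) (C : β × ℝ → HeightOneSpectrum (𝓞 K) → ℂ[X]),
      (∀ p ∈ S, IsTensor (P p.1) M p.2 (C p)) → ∀ η : ℝ, 0 < η →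
      (∀ᶠ ε : ℝ in 𝓝[>] 0, ∑ p ∈ S, sizeT (P p.1) M p.2 (C p) ε ^ 2 / e p.1 ≤
        (M.dim : ℝ) ^ 2 + η) ∧
      ∀ D : HeightOneSpectrum (𝓞 K) → ℂ[X], IsPairing M M D → ∀ᶠ ε : ℝ in 𝓝[>] 0,
        ∑ p ∈ S, sizeT (P p.1) M p.2 (C p) ε ^ 2 / e p.1 ≤ sizeT M M 0 D ε + η) ∧
    (∀ (S : Finset (β × ℝ)) (m : β × ℝ → ℤ), (∀ p ∈ S, EdgeOrder (P p.1) M p.2 (m p)) →
      ∑ p ∈ S, (m p : ℝ) ^ 2 / e p.1 ≤ (M.dim : ℝ) ^ 2 ∧
      ∀ k : ℤ, SquarePole M k → ∑ p ∈ S, (m p : ℝ) ^ 2 / e p.1 ≤ k) ∧
    ∀ E : ℝ, 0 ≤ E →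
      {b : β | e b ≤ E ∧ ∃ (τ : ℝ) (m : ℤ), m ≠ 0 ∧ EdgeOrder (P b) M τ m}.Finite ∧
      ({b : β | e b ≤ E ∧ ∃ (τ : ℝ) (m : ℤ), m ≠ 0 ∧ EdgeOrder (P b) M τ m}.ncard : ℝ) ≤
        E * (M.dim : ℝ) ^ 2 := by
  choose σ hσ using Pool.Agent.W540.BE.exists_isFrob (F := K)
  exact ⟨fun S C hC η hη => sizes hσ hP M S hC hη, fun S m hm => orders hσ hP M S hm,
    fun E hE => members hσ hP M hE⟩

end Pool.Agent.Results.MP_2b9663_nt.ZerosInFamilies
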